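import Mathlib

namespace Pool.Agent.Results.MP_04e67f_nt.Yes

open Finset ArithmeticFunction

/-- abundancy `h(n) = σ(n)/n` -/
noncomputable def h (n : ℕ) : ℝ := ((∑ d ∈ n.divisors, d : ℕ) : ℝ) / n

/-- `H(n) = ∏_{p ∣ n} p/(p-1)` -/
noncomputable def H (n : ℕ) : ℝ := ∏ p ∈ n.primeFactors, (p : ℝ) / (p - 1)

/-- `g(n) = (H(n) - 2) √n` -/
noncomputable def g (n : ℕ) : ℝ := (H n - 2) * √(n : ℝ)

/-- odd and non-deficient -/
def OND (n : ℕ) : Prop := Odd n ∧ 2 * n ≤ ∑ d ∈ n.divisors, d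

/-- odd non-deficient record setters for `g` -/
def B1 (n : ℕ) : Prop := OND n ∧ ∀ k < n, OND k → g k < g n

theorem fac_ge (p : ℕ) (hp : p.Prime) : (1 : ℝ) + 1 / p ≤ (p : ℝ) / (p - 1) := by
  have h2 : (2 : ℝ) ≤ p := by exact_mod_cast hp.two_le
  rw [le_div_iff₀ (by linarith)]
  have : (1 + 1 / (p : ℝ)) * (p - 1) = p - 1 / p := by field_simp; ring
  rw [this]
  have : (0 : ℝ) < 1 / p := by positivity
  linarith

theorem fac_ge1 (p : ℕ) (hp : p.Prime) : (1 : ℝ) ≤ (p : ℝ) / (p - 1) := by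
  have := fac_ge p hp
  have h2 : (0 : ℝ) ≤ 1 / p := by positivity
  linarith

theorem H_le (n : ℕ) (hn : n ≠ 0) : H n ≤ h n ^ 2 := by
  induction n using Nat.recOnPosPrimePosCoprime with
  | zero => exact absurd rfl hn
  | one => simp [H, h]
  | prime_pow p k hp hk =>
    have h2 : (2 : ℝ) ≤ p := by exact_mod_cast hp.two_le
    obtain ⟨k, rfl⟩ : ∃ j, k = j + 1 := ⟨k - 1, by omega⟩
    have e1 : H (p ^ (k + 1)) = (p : ℝ) / (p - 1) := by
      unfold H; rw [Nat.primeFactors_prime_pow (by omega) hp]; simp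
    have e2 : (1 : ℝ) + 1 / p ≤ h (p ^ (k + 1)) := by
      unfold h
      rw [Nat.sum_divisors_prime_pow hp, Finset.sum_range_succ, Finset.sum_range_succ]
      push_cast
      rw [le_div_iff₀ (by positivity)]
      have : (1 + 1 / (p : ℝ)) * p ^ (k + 1) = p ^ k + p ^ (k + 1) := by field_simp; ring
      rw [this]
      have : (0 : ℝ) ≤ ∑ x ∈ range k, (p : ℝ) ^ x := by positivity
      linarith
    rw [e1]
    have e3 : (p : ℝ) / (p - 1) ≤ (1 + 1 / p) ^ 2 := by
      rw [div_le_iff₀ (by linarith)]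
      have : (1 + 1 / (p : ℝ)) ^ 2 * (p - 1) = p + (p * p - p - 1) / (p * p) := by
        field_simp; ring
      rw [this]
      have : (0 : ℝ) ≤ (p * p - p - 1) / (p * p) := by
        apply div_nonneg <;> nlinarith
      linarith
    refine e3.trans ?_
    apply pow_le_pow_left₀ (by positivity) e2
  | coprime a b ha hb hab iha ihb =>
    have e1 : H (a * b) = H a * H b := by
      unfold H
      rw [Nat.Coprime.primeFactors_mul hab, Finset.prod_union hab.disjoint_primeFactors]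
    have e2 : h (a * b) = h a * h b := by
      unfold h
      rw [Nat.Coprime.sum_divisors_mul hab]
      push_cast
      field_simp
    rw [e1, e2, mul_pow]
    have hb0 : 0 ≤ H b := Finset.prod_nonneg fun p hp =>
      le_trans zero_le_one (fac_ge1 p (Nat.prime_of_mem_primeFactors hp))
    exact mul_le_mul (iha (by omega)) (ihb (by omega)) hb0 (by positivity)

theorem H_mono {a b : ℕ} (hab : a ∣ b) (hb : b ≠ 0) : H a ≤ H b := by
  unfold H
  rw [← Finset.prod_sdiff (Nat.primeFactors_mono hab hb)]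
  have h1 : (1 : ℝ) ≤ ∏ p ∈ b.primeFactors \ a.primeFactors, (p : ℝ) / (p - 1) :=
    Finset.one_le_prod fun p hp => fac_ge1 p (Nat.prime_of_mem_primeFactors (Finset.mem_sdiff.1 hp).1)
  have h0 : 0 ≤ ∏ p ∈ a.primeFactors, (p : ℝ) / (p - 1) := Finset.prod_nonneg fun p hp =>
      le_trans zero_le_one (fac_ge1 p (Nat.prime_of_mem_primeFactors hp))
  nlinarith

theorem one_add_sum_le (s : Finset ℕ) (f : ℕ → ℝ) (hf : ∀ i, 0 ≤ f i) :
    1 + ∑ i ∈ s, f i ≤ ∏ i ∈ s, (1 + f i) := by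
  induction s using Finset.induction_on with
  | empty => simp
  | insert a s ha ih =>
    rw [Finset.sum_insert ha, Finset.prod_insert ha]
    have h1 : 0 ≤ ∑ i ∈ s, f i := Finset.sum_nonneg fun i _ => hf i
    have := hf a
    nlinarith

theorem exists_P (C : ℝ) : ∃ P : ℕ, Odd P ∧ C ≤ H P := by
  have hns := not_summable_one_div_on_primes
  have hnn : ∀ n : ℕ, 0 ≤ Set.indicator {p : ℕ | p.Prime} (fun n : ℕ => (1 : ℝ) / n) n :=
    fun n => Set.indicator_nonneg (fun _ _ => by positivity) n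
  rw [not_summable_iff_tendsto_nat_atTop_of_nonneg hnn] at hns
  obtain ⟨N, hN⟩ := (hns.eventually_ge_atTop C).exists
  set s := ((range N).filter Nat.Prime).erase 2 with hs
  have hsp : ∀ p ∈ s, p.Prime := fun p hp => (Finset.mem_filter.1 (Finset.mem_erase.1 hp).2).2
  refine ⟨∏ p ∈ s, p, ?_, ?_⟩
  · apply Finset.prod_induction _ Odd (fun a b => Odd.mul) odd_one
    intro p hp
    exact (hsp p hp).odd_of_ne_two (Finset.mem_erase.1 hp).1
  · unfold H
    rw [Nat.primeFactors_prod hsp]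
    have e1 : ∑ i ∈ range N, Set.indicator {p : ℕ | p.Prime} (fun n : ℕ => (1 : ℝ) / n) i
        = ∑ i ∈ (range N).filter Nat.Prime, (1 : ℝ) / i := by
      rw [Finset.sum_filter]
      apply Finset.sum_congr rfl
      intro i _
      simp [Set.indicator]
    have e2 : ∑ i ∈ (range N).filter Nat.Prime, (1 : ℝ) / i ≤ 1 + ∑ i ∈ s, (1 : ℝ) / i := by
      by_cases h2 : 2 ∈ (range N).filter Nat.Prime
      · have := Finset.add_sum_erase _ (fun i : ℕ => (1 : ℝ) / i) h2
        rw [← this]; push_cast; linarith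
      · rw [hs, Finset.erase_eq_of_notMem h2]; linarith
    have e3 := one_add_sum_le s (fun i : ℕ => (1 : ℝ) / i) (fun i => by positivity)
    have e4 : ∏ i ∈ s, (1 + (1 : ℝ) / i) ≤ ∏ p ∈ s, (p : ℝ) / (p - 1) :=
      Finset.prod_le_prod (fun i _ => by positivity) (fun i hi => fac_ge i (hsp i hi))
    linarith

theorem h_nonneg (n : ℕ) : 0 ≤ h n := by unfold h; positivity

theorem OND_of (k : ℕ) (hk : Odd k) (h4 : 4 ≤ H k) : OND k := by
  refine ⟨hk, ?_⟩
  have hk0 : k ≠ 0 := by rintro rfl; simp at hk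
  have h1 := H_le k hk0
  have h2 : 2 ≤ h k := by
    by_contra hc
    have := h_nonneg k
    nlinarith
  unfold h at h2
  rw [le_div_iff₀ (by positivity)] at h2
  exact_mod_cast h2

theorem exists_mult (P n : ℕ) (hP : Odd P) (hn : 4 * P < n) :
    ∃ k, Odd k ∧ P ∣ k ∧ k < n ∧ n ≤ 2 * k := by
  have hP0 : 0 < P := hP.pos
  set q := (n - 1 - P) / (2 * P) with hq
  have h1 := Nat.div_add_mod (n - 1 - P) (2 * P)
  have h2 := Nat.mod_lt (n - 1 - P) (show 0 < 2 * P by omega)
  rw [← hq] at h1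
  refine ⟨P * (2 * q + 1), hP.mul ⟨q, rfl⟩, Dvd.intro _ rfl, ?_, ?_⟩
  · have : P * (2 * q + 1) = 2 * P * q + P := by ring
    omega
  · have : P * (2 * q + 1) = 2 * P * q + P := by ring
    omega

theorem B1_infinite : {n | B1 n}.Infinite := by
  classical
  apply Set.infinite_of_forall_exists_gt
  intro N
  obtain ⟨M, hM⟩ : ∃ M : ℝ, ∀ k ≤ N, g k ≤ M := by
    refine ⟨∑ k ∈ range (N + 1), |g k|, fun k hk => (le_abs_self _).trans ?_⟩
    exact Finset.single_le_sum (f := fun k => |g k|) (fun _ _ => abs_nonneg _)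
      (Finset.mem_range.2 (by omega))
  have hex : ∃ n, OND n ∧ M < g n := by
    obtain ⟨P, hP, hC⟩ := exists_P (|M| + 4)
    have h0 := abs_nonneg M
    refine ⟨P, OND_of P hP (by linarith), ?_⟩
    unfold g
    have h1 : (1 : ℝ) ≤ √(P : ℝ) := by
      apply Real.le_sqrt_of_sq_le
      have := hP.pos
      have : (1 : ℝ) ≤ P := by exact_mod_cast this
      linarith
    have := le_abs_self M
    nlinarith
  have h1 := Nat.find_spec hex
  refine ⟨Nat.find hex, ⟨h1.1, fun k hk hok => ?_⟩, ?_⟩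
  · have := Nat.find_min hex hk
    have h2 : g k ≤ M := by
      by_contra hc
      exact this ⟨hok, lt_of_not_ge hc⟩
    linarith [h1.2]
  · by_contra hc
    have := hM _ (le_of_not_gt hc)
    linarith [h1.2]

theorem h_large (C : ℝ) : ∃ N, ∀ n, N < n → B1 n → C < h n := by
  obtain ⟨P, hP, hC⟩ := exists_P (2 * C ^ 2 + 4)
  refine ⟨4 * P, fun n hn hB => ?_⟩
  obtain ⟨k, hk, hPk, hkn, hnk⟩ := exists_mult P n hP hn
  have hk0 : k ≠ 0 := by rintro rfl; simp at hk
  have hHk := hC.trans (H_mono hPk hk0)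
  have hC2 : 0 ≤ C ^ 2 := sq_nonneg C
  have hg := hB.2 k hkn (OND_of k hk (by linarith))
  unfold g at hg
  have hs : √(n : ℝ) ≤ 2 * √(k : ℝ) := by
    rw [Real.sqrt_le_iff]
    refine ⟨by positivity, ?_⟩
    rw [mul_pow, Real.sq_sqrt (by positivity)]
    have : (n : ℝ) ≤ 2 * k := by exact_mod_cast hnk
    have : (0 : ℝ) ≤ k := by positivity
    linarith
  have hn0 : n ≠ 0 := by omega
  have hHn := H_le n hn0
  have hsk : 0 < √(k : ℝ) := Real.sqrt_pos.2 (by positivity)
  have hsn : 0 < √(n : ℝ) := Real.sqrt_pos.2 (by positivity)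
  have h1 : C ^ 2 < H n := by
    by_contra hc
    have hc' : H n ≤ C ^ 2 := le_of_not_gt hc
    have a1 : (H n - 2) * √(n : ℝ) ≤ C ^ 2 * √(n : ℝ) :=
      mul_le_mul_of_nonneg_right (by linarith) hsn.le
    have a2 : C ^ 2 * √(n : ℝ) ≤ C ^ 2 * (2 * √(k : ℝ)) := mul_le_mul_of_nonneg_left hs hC2
    have a3 : (2 * C ^ 2) * √(k : ℝ) ≤ (H k - 2) * √(k : ℝ) :=
      mul_le_mul_of_nonneg_right (by linarith) hsk.le
    nlinarith
  have h2 : C ^ 2 < h n ^ 2 := by linarith
  exact lt_of_pow_lt_pow_left₀ 2 (h_nonneg n) h2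

theorem result : {j : ℕ | h (Nat.nth B1 j) < h (Nat.nth B1 (j + 1))}.Infinite := by
  apply Set.infinite_of_forall_exists_gt
  intro J
  by_contra hcon
  push Not at hcon
  have hle : ∀ i, h (Nat.nth B1 (J + 1 + i)) ≤ h (Nat.nth B1 (J + 1)) := by
    intro i
    induction i with
    | zero => simp
    | succ i ih =>
      refine le_trans ?_ ih
      by_contra hc
      have := hcon (J + 1 + i) (lt_of_not_ge hc)
      omega
  obtain ⟨N, hN⟩ := h_large (h (Nat.nth B1 (J + 1)))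
  have h1 : J + 1 + N ≤ Nat.nth B1 (J + 1 + N) := (Nat.nth_strictMono B1_infinite).le_apply
  have h2 := hN (Nat.nth B1 (J + 1 + N)) (by omega) (Nat.nth_mem_of_infinite B1_infinite (J + 1 + N))
  linarith [hle N]

end Pool.Agent.Results.MP_04e67f_nt.Yes
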